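import Pool.Agent.W2helper19.GL.LA

/-!
# Project GL, pieces LA3, LA4
-/

set_option autoImplicit false

open CategoryTheory Limits MonoidalCategory
open Pool.Agent.W2helper16.GL

namespace Pool.Agent.W2helper19.GL

universe u v

/-! ### LA3 -/

section

variable {K : Type u} [Field K] {W : Type v} [AddCommGroup W] [Module K W]
  {A B : Type} [Fintype A] [Fintype B] [DecidableEq A] [DecidableEq B]

omit [DecidableEq A] [DecidableEq B] in
lemma trmul_comm (F : Matrix A B (Module.End K W)) (Z : Matrix B A (Module.End K W)) :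
    ∑ a, LinearMap.trace K W ((F * Z) a a) = ∑ b, LinearMap.trace K W ((Z * F) b b) := by
  simp only [Matrix.mul_apply, map_sum]
  rw [Finset.sum_comm]
  refine Finset.sum_congr rfl fun b _ => Finset.sum_congr rfl fun a _ => ?_
  rw [LinearMap.trace_mul_comm]

lemma pow_mul_comm_mat (F : Matrix A B (Module.End K W)) (G : Matrix B A (Module.End K W))
    (n : ℕ) : (F * G) ^ n * F = F * (G * F) ^ n := by
  induction n with
  | zero => simp
  | succ n ih =>
    rw [pow_succ, pow_succ, Matrix.mul_assoc ((F * G) ^ n) (F * G) F, Matrix.mul_assoc F G F,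
      ← Matrix.mul_assoc ((F * G) ^ n) F (G * F), ih, Matrix.mul_assoc]

lemma trace_endVec [Module.Finite K W] (X : Matrix B B (Module.End K W)) :
    LinearMap.trace K (B → W) ((endVecRingEquivMatrixEnd B K W).symm X) =
      ∑ b, LinearMap.trace K W (X b b) := by
  have h1 : (endVecRingEquivMatrixEnd B K W).symm X =
      ∑ b, ∑ c, (LinearMap.single K (fun _ : B => W) b) ∘ₗ (X b c ∘ₗ LinearMap.proj c) := by
    refine LinearMap.ext fun v => ?_
    funext b
    have h2 : ((endVecRingEquivMatrixEnd B K W).symm X) v b = ∑ c, X b c (v c) := rfl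
    rw [h2]
    simp only [LinearMap.sum_apply, Finset.sum_apply, LinearMap.comp_apply,
      LinearMap.coe_single, LinearMap.proj_apply, Pi.single_apply]
    rw [Finset.sum_comm]
    refine Finset.sum_congr rfl fun c _ => ?_
    simp
  rw [h1, map_sum]
  refine Finset.sum_congr rfl fun b _ => ?_
  rw [map_sum]
  have h3 : ∀ c, LinearMap.trace K (B → W)
      ((LinearMap.single K (fun _ : B => W) b) ∘ₗ (X b c ∘ₗ LinearMap.proj c)) =
      if c = b then LinearMap.trace K W (X b c) else 0 := by
    intro c
    rw [LinearMap.trace_comp_comm']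
    by_cases hcb : c = b
    · subst hcb
      rw [if_pos rfl, LinearMap.comp_assoc, LinearMap.proj_comp_single_same, LinearMap.comp_id]
    · rw [if_neg hcb, LinearMap.comp_assoc, LinearMap.proj_comp_single_ne _ _ _ _ hcb,
        LinearMap.comp_zero, map_zero]
  rw [Finset.sum_congr rfl fun c _ => h3 c]
  simp

end

theorem la3 : StmLA3.{u, v} := by
  intro K _ _ W _ _ _ A B _ _ _ _
  refine ⟨?_, ?_, ?_, ?_⟩
  · intro F G n
    have h1 : (F * G) ^ (n + 1) = F * ((G * F) ^ n * G) := by
      rw [pow_succ, ← Matrix.mul_assoc, pow_mul_comm_mat, Matrix.mul_assoc]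
    rw [h1, trmul_comm, Matrix.mul_assoc, ← pow_succ]
  · intro D hD
    exact Pool.Agent.W457.isNilpotent_of_trace_pow D hD
  · intro X hX
    rw [← IsNilpotent.map_iff (f := (endVecRingEquivMatrixEnd B K W).symm)
      (endVecRingEquivMatrixEnd B K W).symm.injective]
    apply Pool.Agent.W457.isNilpotent_of_trace_pow
    intro n
    rw [← map_pow, trace_endVec]
    exact hX n
  · intro X hX
    rw [← trace_endVec]
    exact (LinearMap.isNilpotent_trace_of_isNilpotent
      (hX.map (endVecRingEquivMatrixEnd B K W).symm)).eq_zero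

/-! ### LA4 -/

theorem la4 : StmLA4.{u, v} := by
  intro h3 K _ _ W _ _ _ A B _ _ _ _ E F G J h hnil hcard
  obtain ⟨-, hD, -, htr⟩ := h3 K W A B
  set p : K := (Fintype.card A : K) with hp
  set q : K := (Fintype.card B : K) with hq
  set c : K := p - q with hc
  have hc0 : c ≠ 0 := by
    rw [hc, sub_ne_zero, hp, hq]
    exact fun h => hcard (Nat.cast_injective h)
  set SE : Module.End K W := ∑ a, E a a with hSE
  set SJ : Module.End K W := ∑ b, J b b with hSJ
  set D : Module.End K W := q • SE - p • SJ with hDdef
  have hEF : ∀ a b, SE * F a b - F a b * SE = -F a b := by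
    intro a b
    rw [hSE, Finset.sum_mul, Finset.mul_sum, ← Finset.sum_sub_distrib]
    simp_rw [h.ef]
    rw [Finset.sum_neg_distrib]
    simp
  have hJF : ∀ a b, SJ * F a b - F a b * SJ = -F a b := by
    intro a b
    rw [hSJ, Finset.sum_mul, Finset.mul_sum, ← Finset.sum_sub_distrib]
    simp_rw [h.jf]
    rw [Finset.sum_neg_distrib]
    simp
  have hEG : ∀ b a, SE * G b a - G b a * SE = G b a := by
    intro b a
    rw [hSE, Finset.sum_mul, Finset.mul_sum, ← Finset.sum_sub_distrib]
    simp_rw [h.eg]
    simp
  have hJG : ∀ b a, SJ * G b a - G b a * SJ = G b a := by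
    intro b a
    rw [hSJ, Finset.sum_mul, Finset.mul_sum, ← Finset.sum_sub_distrib]
    simp_rw [h.jg]
    simp
  have hDF : ∀ a b, D * F a b = F a b * (D + c • 1) := by
    intro a b
    have h1 := congrArg (fun x => q • x) (hEF a b)
    have h2 := congrArg (fun x => p • x) (hJF a b)
    simp only [smul_sub, smul_neg] at h1 h2
    rw [hDdef, sub_mul, mul_add, mul_sub, smul_mul_assoc, smul_mul_assoc, mul_smul_comm,
      mul_smul_comm, mul_smul_comm, mul_one, hc, sub_smul]
    have h1' : q • (SE * F a b) = q • (F a b * SE) - q • F a b := by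
      rw [sub_eq_iff_eq_add] at h1
      rw [h1]
      abel
    have h2' : p • (SJ * F a b) = p • (F a b * SJ) - p • F a b := by
      rw [sub_eq_iff_eq_add] at h2
      rw [h2]
      abel
    rw [h1', h2']
    abel
  have hDG : ∀ b a, D * G b a = G b a * (D - c • 1) := by
    intro b a
    have h1 := congrArg (fun x => q • x) (hEG b a)
    have h2 := congrArg (fun x => p • x) (hJG b a)
    simp only [smul_sub] at h1 h2
    rw [hDdef, sub_mul, mul_sub, mul_sub, smul_mul_assoc, smul_mul_assoc, mul_smul_comm,
      mul_smul_comm, mul_smul_comm, mul_one, hc, sub_smul]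
    have h1' : q • (SE * G b a) = q • (G b a * SE) + q • G b a := by
      rw [sub_eq_iff_eq_add] at h1
      rw [h1]
      abel
    have h2' : p • (SJ * G b a) = p • (G b a * SJ) + p • G b a := by
      rw [sub_eq_iff_eq_add] at h2
      rw [h2]
      abel
    rw [h1', h2']
    abel
  have hFs : ∀ a b (k : ℕ), D ^ k * F a b = F a b * (D + c • 1) ^ k := by
    intro a b k
    have : SemiconjBy (F a b) (D + c • 1) D := (hDF a b).symm
    exact (this.pow_right k).eq.symm
  have hGs : ∀ b a (k : ℕ), D ^ k * G b a = G b a * (D - c • 1) ^ k := by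
    intro b a k
    have : SemiconjBy (G b a) (D - c • 1) D := (hDG b a).symm
    exact (this.pow_right k).eq.symm
  -- `D` commutes with `G F`
  have hGF : ∀ b b', Commute ((G * F) b b') D := by
    intro b b'
    rw [Matrix.mul_apply]
    refine Commute.sum_left _ _ _ fun a _ => ?_
    show G b a * F a b' * D = D * (G b a * F a b')
    have h1 : SemiconjBy (F a b') (D + c • 1) D := (hDF a b').symm
    have h2 : SemiconjBy (G b a) (D - c • 1) D := (hDG b a).symm
    have h3 : SemiconjBy (F a b') D (D - c • 1) := by
      show F a b' * D = (D - c • 1) * F a b'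
      rw [sub_mul, hDF a b', mul_add, smul_mul_assoc, one_mul, mul_smul_comm, mul_one]
      abel
    exact (h2.mul_left h3).eq
  have hdiag : ∀ T : Module.End K W, (∀ b b', Commute ((G * F) b b') T) →
      ∑ b, ∑ a, LinearMap.trace K W (G b a * F a b * T) = 0 := by
    intro T hT
    have hcm : Commute (G * F) (Matrix.diagonal fun _ => T) := by
      show G * F * Matrix.diagonal (fun _ => T) = Matrix.diagonal (fun _ => T) * (G * F)
      ext1 b b'
      rw [Matrix.mul_diagonal, Matrix.diagonal_mul]
      exact (hT b b').eq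
    have hn : IsNilpotent (G * F * Matrix.diagonal fun _ => T) := hcm.isNilpotent_mul_right hnil
    have h4 := htr _ hn
    rw [← h4]
    refine Finset.sum_congr rfl fun b _ => ?_
    rw [Matrix.mul_diagonal, Matrix.mul_apply, Finset.sum_mul, map_sum]
  have hpowc : ∀ k : ℕ, LinearMap.trace K W (D ^ (k + 1)) = 0 := by
    intro k
    have e1 : ∑ b, ∑ a, LinearMap.trace K W (D ^ k * (G b a * F a b)) = 0 := by
      rw [← hdiag (D ^ k) fun b b' => (hGF b b').pow_right k]
      refine Finset.sum_congr rfl fun b _ => Finset.sum_congr rfl fun a _ => ?_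
      rw [LinearMap.trace_mul_comm]
    have e2 : ∑ b, ∑ a, LinearMap.trace K W (D ^ k * (F a b * G b a)) = 0 := by
      rw [← hdiag ((D + c • 1) ^ k) fun b b' => by
        refine Commute.pow_right ?_ k
        refine (hGF b b').add_right ?_
        rw [← Algebra.algebraMap_eq_smul_one]
        exact (Algebra.commutes c _).symm]
      refine Finset.sum_congr rfl fun b _ => Finset.sum_congr rfl fun a _ => ?_
      rw [mul_assoc (G b a), ← hFs, LinearMap.trace_mul_comm K (G b a), mul_assoc]
    have e3 : D = ∑ b, ∑ a, (G b a * F a b + F a b * G b a) := by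
      have e4 : ∀ b a, G b a * F a b + F a b * G b a = E a a - J b b := by
        intro b a
        have := h.gf a a b b
        rw [if_pos rfl, if_pos rfl] at this
        exact this
      simp_rw [e4, Finset.sum_sub_distrib]
      rw [hDdef, hSE, hSJ, hp, hq]
      congr 1
      · rw [Finset.sum_const, Finset.card_univ, Nat.cast_smul_eq_nsmul]
      · rw [Nat.cast_smul_eq_nsmul, Finset.smul_sum]
        refine Finset.sum_congr rfl fun b _ => ?_
        rw [Finset.sum_const, Finset.card_univ]
    have e5 : D ^ (k + 1) = ∑ b, ∑ a, (D ^ k * (G b a * F a b) + D ^ k * (F a b * G b a)) := by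
      have e6 : D ^ (k + 1) = D ^ k * ∑ b, ∑ a, (G b a * F a b + F a b * G b a) := by
        rw [← e3, pow_succ]
      rw [e6, Finset.mul_sum]
      refine Finset.sum_congr rfl fun b _ => ?_
      rw [Finset.mul_sum]
      refine Finset.sum_congr rfl fun a _ => ?_
      rw [mul_add]
    rw [e5]
    simp only [map_sum, map_add, Finset.sum_add_distrib]
    rw [e1, e2, add_zero]
  have hDn : IsNilpotent D := hD D hpowc
  have hcu : IsUnit (c • (1 : Module.End K W)) := by
    rw [← Algebra.algebraMap_eq_smul_one]
    exact (IsUnit.mk0 c hc0).map (algebraMap K (Module.End K W))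
  have hccom : Commute D (c • (1 : Module.End K W)) := by
    rw [← Algebra.algebraMap_eq_smul_one]
    exact (Algebra.commutes c D).symm
  obtain ⟨m, hm⟩ := hDn
  have hDn : IsNilpotent D := ⟨m, hm⟩
  have hu1 : IsUnit (D + c • 1) := hDn.isUnit_add_right_of_commute hcu hccom
  have hu2 : IsUnit (D - c • 1) := by
    rw [sub_eq_add_neg]
    exact hDn.isUnit_add_right_of_commute hcu.neg hccom.neg_right
  constructor
  · ext1 a b
    have := hFs a b m
    rw [hm, zero_mul] at this
    rw [Matrix.zero_apply]
    exact (hu1.pow m).mul_left_eq_zero.1 this.symm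
  · ext1 b a
    have := hGs b a m
    rw [hm, zero_mul] at this
    rw [Matrix.zero_apply]
    exact (hu2.pow m).mul_left_eq_zero.1 this.symm

end Pool.Agent.W2helper19.GL
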