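import Pool.Agent.W2helper16.GL.Stm
import Pool.Agent.W457.T4

/-!
# Project GL, pieces LA1, LA2, LA3, LA4
-/

set_option autoImplicit false

open CategoryTheory Limits MonoidalCategory
open Pool.Agent.W2helper16.GL

namespace Pool.Agent.W2helper19.GL

universe u v

/-! ### LA1 and LA2 -/

theorem la1 : StmLA1.{u, v} := by
  intro K _ W _ _ A B _ _ _ _ E F G J h n
  have key : ∀ x y z w : A,
      (if z = x then LinearMap.trace K W (((F * G) ^ n) y w) else 0) =
        (if y = w then LinearMap.trace K W (((F * G) ^ n) z x) else 0) := by
    intro x y z w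
    let D : Matrix A A (Module.End K W) := Matrix.single x y 1 + Matrix.diagonal fun _ => E y x
    let D' : Matrix B B (Module.End K W) := Matrix.diagonal fun _ => E y x
    have h1 : D * F = F * D' := by
      ext1 a b
      simp only [D, D', Matrix.add_mul, Matrix.add_apply, Matrix.diagonal_mul, Matrix.mul_diagonal]
      have h2 := h.ef y x a b
      have h3 : (Matrix.single x y (1 : Module.End K W) * F) a b = if x = a then F y b else 0 := by
        by_cases hxa : x = a
        · subst hxa
          simp
        · simp [hxa, Matrix.single_mul_apply_of_ne _ _ _ _ _ (Ne.symm hxa)]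
      rw [h3]
      rw [sub_eq_iff_eq_add] at h2
      rw [h2]
      abel
    have h1' : D' * G = G * D := by
      ext1 b a
      simp only [D, D', Matrix.mul_add, Matrix.add_apply, Matrix.diagonal_mul, Matrix.mul_diagonal]
      have h2 := h.eg y x a b
      have h3 : (G * Matrix.single x y (1 : Module.End K W)) b a = if y = a then G b x else 0 := by
        by_cases hya : y = a
        · subst hya
          simp
        · simp [hya, Matrix.mul_single_apply_of_ne _ _ _ _ _ (Ne.symm hya)]
      rw [h3]
      rw [sub_eq_iff_eq_add] at h2
      rw [h2]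
    have hcom : Commute D (F * G) := by
      show D * (F * G) = F * G * D
      rw [← Matrix.mul_assoc, h1, Matrix.mul_assoc, h1', Matrix.mul_assoc]
    have hcomn := (hcom.pow_right n).eq
    have h4 := congrFun (congrFun hcomn z) w
    simp only [D, Matrix.add_mul, Matrix.mul_add, Matrix.add_apply, Matrix.diagonal_mul,
      Matrix.mul_diagonal] at h4
    have h5 : (Matrix.single x y (1 : Module.End K W) * (F * G) ^ n) z w =
        if z = x then ((F * G) ^ n) y w else 0 := by
      by_cases hxz : z = x
      · subst hxz
        simp
      · simp [hxz, Matrix.single_mul_apply_of_ne _ _ _ _ _ hxz]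
    have h6 : ((F * G) ^ n * Matrix.single x y (1 : Module.End K W)) z w =
        if y = w then ((F * G) ^ n) z x else 0 := by
      by_cases hyw : y = w
      · subst hyw
        simp
      · simp [hyw, Matrix.mul_single_apply_of_ne _ _ _ _ _ (Ne.symm hyw)]
    rw [h5, h6] at h4
    have h7 := congrArg (LinearMap.trace K W) h4
    rw [map_add, map_add, LinearMap.trace_mul_comm K (E y x)] at h7
    have h8 := add_right_cancel h7
    rw [apply_ite (LinearMap.trace K W), apply_ite (LinearMap.trace K W), map_zero] at h8
    exact h8
  rcases isEmpty_or_nonempty A with hA | ⟨⟨x0⟩⟩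
  · exact ⟨0, fun a => (hA.false a).elim⟩
  · refine ⟨LinearMap.trace K W (((F * G) ^ n) x0 x0), fun a a' => ?_⟩
    have := key x0 a x0 a'
    rw [if_pos rfl] at this
    exact this

theorem la2 : StmLA2.{u, v} := by
  intro K _ W _ _ A B _ _ _ _ E F G J h n
  have h' : Rel (fun b b' => -J b b') G F (fun a a' => -E a a') := by
    constructor
    · intro b b' b'' a
      have := h.jf b b' b'' a
      rw [neg_mul, mul_neg, sub_neg_eq_add, neg_add_eq_sub, ← neg_sub, this, neg_neg]
    · intro b b' b'' a
      have := h.jg b b' b'' a
      rw [neg_mul, mul_neg, sub_neg_eq_add, neg_add_eq_sub, ← neg_sub, this]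
    · intro a a' a'' b
      have := h.eg a a' a'' b
      rw [neg_mul, mul_neg, sub_neg_eq_add, neg_add_eq_sub, ← neg_sub, this]
    · intro a a' a'' b
      have := h.ef a a' a'' b
      rw [neg_mul, mul_neg, sub_neg_eq_add, neg_add_eq_sub, ← neg_sub, this, neg_neg]
    · intro b b' a a'
      have := h.gf a' a b' b
      rw [add_comm] at this
      rw [this]
      by_cases h1 : a = a' <;> by_cases h2 : b = b' <;>
        simp [h1, h2, eq_comm (a := b'), eq_comm (a := a')] <;> abel
  obtain ⟨β, hβ⟩ := la1 K W B A _ G F _ h' n
  exact ⟨β, hβ⟩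

end Pool.Agent.W2helper19.GL
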